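import Mathlib

set_option autoImplicit false

namespace Pool.Agent.FracEM

open Finset

/-- independent j-sets of a k-uniform hypergraph with many edges (Kruskal-Katona, Lovasz form) -/
theorem FEM_ind_bound {n k m j : ℕ} (H : Finset (Finset (Fin n))) (hk : 1 ≤ k)
    (hH : ∀ e ∈ H, e.card = k) (hmn : m ≤ n) (h : n.choose k < H.card + m.choose k) (hkj : k ≤ j) :
    (((univ : Finset (Fin n)).powersetCard j).filter (fun S => ¬ ∃ e ∈ H, e ⊆ S)).card ≤ m.choose j := by
  classical
  have hHsub : H ⊆ (univ : Finset (Fin n)).powersetCard k := by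
    intro e he
    rw [Finset.mem_powersetCard]
    exact ⟨Finset.subset_univ _, hH e he⟩
  have hHcard : H.card ≤ n.choose k := by
    have := Finset.card_le_card hHsub
    rwa [Finset.card_powersetCard, Finset.card_univ, Fintype.card_fin] at this
  have hkm : k ≤ m := by
    by_contra hlt
    push Not at hlt
    rw [Nat.choose_eq_zero_of_lt hlt] at h
    omega
  -- independent k-sets
  have hIk : (((univ : Finset (Fin n)).powersetCard k) \ H).card < m.choose k := by
    rw [Finset.card_sdiff_of_subset hHsub, Finset.card_powersetCard, Finset.card_univ,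
      Fintype.card_fin]
    omega
  -- a k-subset of an independent set is independent
  have hsub : ∀ S T : Finset (Fin n), (¬ ∃ e ∈ H, e ⊆ S) → T ⊆ S → T.card = k →
      T ∈ ((univ : Finset (Fin n)).powersetCard k) \ H := by
    intro S T hS hTS hT
    rw [Finset.mem_sdiff, Finset.mem_powersetCard]
    exact ⟨⟨Finset.subset_univ _, hT⟩, fun hTH => hS ⟨T, hTH, hTS⟩⟩
  by_contra hcon0
  have hcon := Nat.lt_of_not_le hcon0
  clear hcon0
  rcases Nat.lt_or_ge m j with hmj | hjm
  · rw [Nat.choose_eq_zero_of_lt hmj] at hcon
    obtain ⟨S, hS⟩ := Finset.card_pos.1 hcon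
    rw [Finset.mem_filter, Finset.mem_powersetCard] at hS
    have h1 : S.powersetCard k ⊆ ((univ : Finset (Fin n)).powersetCard k) \ H := by
      intro T hT
      rw [Finset.mem_powersetCard] at hT
      exact hsub S T hS.2 hT.1 hT.2
    have h2 := Finset.card_le_card h1
    rw [Finset.card_powersetCard, hS.1.2] at h2
    have h3 : m.choose k ≤ j.choose k := Nat.choose_le_choose k hmj.le
    omega
  · set A := ((univ : Finset (Fin n)).powersetCard j).filter (fun S => ¬ ∃ e ∈ H, e ⊆ S) with hA
    have hsized : (A : Set (Finset (Fin n))).Sized j := by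
      intro S hS
      have hS' : S ∈ A := hS
      rw [hA, Finset.mem_filter, Finset.mem_powersetCard] at hS'
      exact hS'.1.2
    have hkk := Finset.kruskal_katona_lovasz_form (n := n) (i := j - k) (r := j) (k := m)
      (𝒜 := A) (Nat.sub_le _ _) hjm hmn hsized hcon.le
    have hjk : j - (j - k) = k := by omega
    rw [hjk] at hkk
    have hshadow : Finset.shadow^[j - k] A ⊆ ((univ : Finset (Fin n)).powersetCard k) \ H := by
      intro T hT
      rw [Finset.mem_shadow_iterate_iff_exists_mem_card_add] at hT
      obtain ⟨S, hSA, hTS, hcard⟩ := hT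
      rw [hA, Finset.mem_filter, Finset.mem_powersetCard] at hSA
      refine hsub S T hSA.2 hTS ?_
      have := hSA.1.2
      omega
    have h2 := Finset.card_le_card hshadow
    omega


end Pool.Agent.FracEM
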