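import Mathlib
import Pool.Agent.Helper903.ES.Main

set_option autoImplicit false

namespace Pool.Agent.FracEM

open Finset ES903

/-- iterated disjoint occurrence: `s` disjoint subsets of `S` each satisfying `f` -/
def iterC {V : Type*} [DecidableEq V] (f : Finset V → Prop) : ℕ → Finset V → Prop
  | 0 => fun _ => True
  | (i + 1) => comp f (iterC f i)

theorem E_iterC {V : Type*} [DecidableEq V] (R : Finset V) (f : Finset V → Prop) (s : ℕ) :
    E R (Fail (iterC f s)) ≤ s * E R (Fail f) := by
  induction s with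
  | zero =>
    have : E R (Fail (iterC f 0)) = 0 := by
      unfold E
      refine Finset.sum_eq_zero fun S _ => ?_
      have : Fail (iterC f 0) S = 0 := by simp [Fail, iterC]
      rw [this, zero_div]
    rw [this]; simp
  | succ i ih =>
    have := glue R f (iterC f i)
    have h2 : E R (Fail (iterC f (i + 1))) = E R (Fail (comp f (iterC f i))) := rfl
    rw [h2]
    push_cast
    linarith

theorem E_never {V : Type*} [DecidableEq V] (R : Finset V) (f : Finset V → Prop)
    (h : ∀ S, ¬ f S) : E R (Fail f) = (R.card : ℚ) + 1 := by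
  unfold E
  rw [Finset.sum_powerset]
  have h2 : ∀ j ∈ range (R.card + 1),
      ∑ t ∈ powersetCard j R, Fail f t / (R.card.choose t.card : ℚ) = 1 := by
    intro j hj
    rw [mem_range] at hj
    have hne : (R.card.choose j : ℚ) ≠ 0 := by
      exact_mod_cast (Nat.choose_pos (by omega)).ne'
    have h1 : ∀ t ∈ powersetCard j R, Fail f t / (R.card.choose t.card : ℚ)
        = 1 / (R.card.choose j : ℚ) := by
      intro t ht
      rw [mem_powersetCard] at ht
      rw [ht.2]
      simp [Fail, h t]
    rw [Finset.sum_congr rfl h1, Finset.sum_const, card_powersetCard, nsmul_eq_mul,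
      mul_one_div, div_self hne]
  rw [Finset.sum_congr rfl h2]
  simp

theorem exists_iterC {V : Type*} [DecidableEq V] (R : Finset V) (f : Finset V → Prop) (s : ℕ)
    (h : (s : ℚ) * E R (Fail f) < (R.card : ℚ) + 1) : ∃ S, iterC f s S := by
  by_contra hcon
  push Not at hcon
  have := E_never R (iterC f s) hcon
  have h2 := E_iterC R f s
  linarith

theorem extractM {V : Type*} [DecidableEq V] (H : Finset (Finset V)) (hH : ∀ e ∈ H, e.Nonempty) :
    ∀ (s : ℕ) (S : Finset V), iterC (fun S => ∃ e ∈ H, e ⊆ S) s S →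
      ∃ M : Finset (Finset V), M ⊆ H ∧ M.card = s ∧ (∀ e ∈ M, e ⊆ S) ∧
        (∀ e ∈ M, ∀ e' ∈ M, e ≠ e' → Disjoint e e') := by
  intro s
  induction s with
  | zero =>
    intro S _
    exact ⟨∅, by simp, by simp, by simp, by simp⟩
  | succ i ih =>
    intro S hS
    obtain ⟨S1, hS1, ⟨e, he, heS⟩, hrest⟩ := hS
    obtain ⟨M, hMH, hMc, hMS, hMd⟩ := ih _ hrest
    have hdis : ∀ e' ∈ M, Disjoint e e' := by
      intro e' he'
      have h1 := hMS e' he'
      exact Finset.disjoint_of_subset_left heS
        (Finset.disjoint_of_subset_right h1 (Finset.disjoint_sdiff))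
    have hnot : e ∉ M := by
      intro hmem
      have := hdis e hmem
      rw [disjoint_self] at this
      exact (hH e he).ne_empty this
    refine ⟨insert e M, ?_, ?_, ?_, ?_⟩
    · intro x hx
      rcases Finset.mem_insert.1 hx with rfl | hx
      · exact he
      · exact hMH hx
    · rw [Finset.card_insert_of_notMem hnot, hMc]
    · intro x hx
      rcases Finset.mem_insert.1 hx with rfl | hx
      · exact heS.trans hS1
      · exact (hMS x hx).trans Finset.sdiff_subset
    · intro a ha b hb hab
      rcases Finset.mem_insert.1 ha with ha1 | ha1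
      · rcases Finset.mem_insert.1 hb with hb1 | hb1
        · exact absurd (ha1.trans hb1.symm) hab
        · rw [ha1]; exact hdis b hb1
      · rcases Finset.mem_insert.1 hb with hb1 | hb1
        · rw [hb1]; exact (hdis a ha1).symm
        · exact hMd a ha1 b hb1 hab

theorem E_eq_levels {n : ℕ} (f : Finset (Fin n) → Prop) [DecidablePred f] :
    E (univ : Finset (Fin n)) (Fail f) =
      ∑ j ∈ range (n + 1), (((univ : Finset (Fin n)).powersetCard j).filter (fun S => ¬ f S)).card
        / (n.choose j : ℚ) := by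
  unfold E
  rw [Finset.sum_powerset]
  simp only [Finset.card_univ, Fintype.card_fin]
  refine Finset.sum_congr rfl fun j _ => ?_
  have h1 : ∀ t ∈ (univ : Finset (Fin n)).powersetCard j, Fail f t / (n.choose t.card : ℚ)
      = (if ¬ f t then (1 : ℚ) else 0) / (n.choose j : ℚ) := by
    intro t ht
    rw [mem_powersetCard] at ht
    rw [ht.2]
    congr 1
    unfold Fail
    by_cases h : f t <;> simp [h]
  rw [Finset.sum_congr rfl h1, ← Finset.sum_div, Finset.sum_boole]

theorem desc_le (m n : ℕ) (h : m ≤ n) (j : ℕ) :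
    m.descFactorial j * n ^ j ≤ n.descFactorial j * m ^ j := by
  induction j with
  | zero => simp
  | succ j ih =>
    rw [Nat.descFactorial_succ, Nat.descFactorial_succ, pow_succ, pow_succ]
    have h1 : (m - j) * n ≤ (n - j) * m := by
      rcases Nat.le_total m j with hj | hj
      · rw [Nat.sub_eq_zero_of_le hj]; simp
      · obtain ⟨a, rfl⟩ := Nat.exists_eq_add_of_le hj
        obtain ⟨b, rfl⟩ := Nat.exists_eq_add_of_le h
        have e1 : j + a - j = a := by omega
        have e2 : j + a + b - j = a + b := by omega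
        rw [e1, e2]
        nlinarith
    calc (m - j) * m.descFactorial j * (n ^ j * n)
        = ((m - j) * n) * (m.descFactorial j * n ^ j) := by ring
      _ ≤ ((n - j) * m) * (n.descFactorial j * m ^ j) := Nat.mul_le_mul h1 ih
      _ = (n - j) * n.descFactorial j * (m ^ j * m) := by ring

theorem choose_le_pow (m n : ℕ) (h : m ≤ n) (j : ℕ) :
    m.choose j * n ^ j ≤ n.choose j * m ^ j := by
  have := desc_le m n h j
  rw [Nat.descFactorial_eq_factorial_mul_choose, Nat.descFactorial_eq_factorial_mul_choose,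
    mul_assoc, mul_assoc] at this
  exact Nat.le_of_mul_le_mul_left this (Nat.factorial_pos j)

theorem choose_ratio_le (m n : ℕ) (y : ℝ) (hm : (m : ℝ) ≤ y * n) (hmn : m ≤ n)
    (hn : 1 ≤ n) (j : ℕ) (hj : j ≤ n) :
    (m.choose j : ℝ) / (n.choose j : ℝ) ≤ y ^ j := by
  have hc : (0 : ℝ) < (n.choose j : ℝ) := by exact_mod_cast Nat.choose_pos hj
  have hn' : (0 : ℝ) < (n : ℝ) := by exact_mod_cast hn
  rw [div_le_iff₀ hc]
  have h1 : (m.choose j : ℝ) * (n : ℝ) ^ j ≤ (n.choose j : ℝ) * (m : ℝ) ^ j := by
    exact_mod_cast choose_le_pow m n hmn j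
  have h2 : (m : ℝ) ^ j ≤ (y * n) ^ j := pow_le_pow_left₀ (by positivity) hm j
  rw [mul_pow] at h2
  have h3 : (m.choose j : ℝ) * (n : ℝ) ^ j ≤ (y ^ j * (n.choose j : ℝ)) * (n : ℝ) ^ j := by
    calc (m.choose j : ℝ) * (n : ℝ) ^ j ≤ (n.choose j : ℝ) * (m : ℝ) ^ j := h1
      _ ≤ (n.choose j : ℝ) * (y ^ j * (n : ℝ) ^ j) := by gcongr
      _ = _ := by ring
  exact le_of_mul_le_mul_right h3 (by positivity)

end Pool.Agent.FracEM
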