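import Mathlib
import Pool.Agent.FracEM.Pack
import Pool.Agent.FracEM.Ind

set_option autoImplicit false

namespace Pool.Agent.FracEM

open Finset ES903

theorem geom_part (n k : ℕ) (hkn : k ≤ n) (y : ℝ) (hy0 : 0 < y) (hy1 : y < 1) :
    ∑ j ∈ range (n + 1), (if j < k then (1 : ℝ) else y ^ j) < k + y ^ k / (1 - y) := by
  have h1 : ∑ j ∈ range (n + 1), (if j < k then (1 : ℝ) else y ^ j)
      = ∑ j ∈ range k, (1 : ℝ) + ∑ j ∈ Ico k (n + 1), y ^ j := by
    rw [← Finset.sum_range_add_sum_Ico _ (show k ≤ n + 1 by omega)]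
    congr 1
    · refine Finset.sum_congr rfl fun j hj => ?_
      rw [if_pos (mem_range.1 hj)]
    · refine Finset.sum_congr rfl fun j hj => ?_
      rw [if_neg (by have := (mem_Ico.1 hj).1; omega)]
  rw [h1, geom_sum_Ico (by linarith) (by omega)]
  have h2 : (y ^ (n + 1) - y ^ k) / (y - 1) < y ^ k / (1 - y) := by
    have h3 : (y ^ (n + 1) - y ^ k) / (y - 1) = (y ^ k - y ^ (n + 1)) / (1 - y) := by
      rw [← neg_sub (y ^ k), ← neg_sub 1 y, neg_div_neg_eq]
    rw [h3]
    have h4 : 0 < 1 - y := by linarith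
    have h5 : 0 < y ^ (n + 1) := by positivity
    gcongr
    linarith
  simp only [sum_const, card_range, nsmul_eq_mul, mul_one]
  linarith

theorem finite_bound {n k s : ℕ} (hk : 1 ≤ k) (hs : 1 ≤ s) (y : ℝ) (hy0 : 0 ≤ y) (hy1 : y < 1)
    (hy : y ^ k / (1 - y) ≤ ((n : ℝ) + 1) / s - k)
    (H : Finset (Finset (Fin n))) (hH : ∀ e ∈ H, e.card = k)
    (hcard : n.choose k < H.card + (⌊y * n⌋₊).choose k) :
    ∃ M : Finset (Finset (Fin n)), M ⊆ H ∧ M.card = s ∧
      ∀ e ∈ M, ∀ e' ∈ M, e ≠ e' → Disjoint e e' := by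
  classical
  set m := ⌊y * n⌋₊ with hm
  have hyn : 0 ≤ y * n := by positivity
  have hmy : (m : ℝ) ≤ y * n := Nat.floor_le hyn
  have hmn : m ≤ n := by
    have : (m : ℝ) ≤ n := by
      refine hmy.trans ?_
      have : (0 : ℝ) ≤ n := by positivity
      nlinarith
    exact_mod_cast this
  have hHc : H.card ≤ n.choose k := by
    have : H ⊆ powersetCard k (univ : Finset (Fin n)) := by
      intro e he
      rw [mem_powersetCard]
      exact ⟨subset_univ _, hH e he⟩
    have := card_le_card this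
    rwa [card_powersetCard, card_univ, Fintype.card_fin] at this
  have hmk : k ≤ m := by
    by_contra hlt
    have hlt' : m < k := not_le.1 hlt
    rw [Nat.choose_eq_zero_of_lt hlt'] at hcard
    omega
  have hn : 1 ≤ n := by omega
  have hypos : 0 < y := by
    rcases hy0.eq_or_lt with h | h
    · exfalso
      have : m = 0 := by rw [hm, ← h]; simp
      omega
    · exact h
  set f : Finset (Fin n) → Prop := fun S => ∃ e ∈ H, e ⊆ S with hf
  have hE : ((E (univ : Finset (Fin n)) (Fail f) : ℚ) : ℝ) < k + y ^ k / (1 - y) := by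
    rw [E_eq_levels f]
    push_cast
    refine lt_of_le_of_lt (Finset.sum_le_sum fun j hj => ?_) (geom_part n k (by omega) y hypos hy1)
    rw [mem_range] at hj
    have hc : (0 : ℝ) < (n.choose j : ℝ) := by exact_mod_cast Nat.choose_pos (by omega)
    by_cases hjk : j < k
    · rw [if_pos hjk, div_le_one hc]
      have : (((univ : Finset (Fin n)).powersetCard j).filter (fun S => ¬ f S)).card
          ≤ n.choose j := by
        refine (card_filter_le _ _).trans ?_
        rw [card_powersetCard, card_univ, Fintype.card_fin]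
      exact_mod_cast this
    · rw [if_neg hjk]
      have h1 := FEM_ind_bound H hk hH hmn hcard (not_lt.1 hjk)
      have h2 := choose_ratio_le m n y hmy hmn hn j (by omega)
      refine le_trans ?_ h2
      gcongr
  have hs' : (0 : ℝ) < s := by exact_mod_cast hs
  have hlt : (s : ℚ) * E (univ : Finset (Fin n)) (Fail f) < ((univ : Finset (Fin n)).card : ℚ) + 1 := by
    rw [card_univ, Fintype.card_fin]
    have h3 : ((E (univ : Finset (Fin n)) (Fail f) : ℚ) : ℝ) < ((n : ℝ) + 1) / s := by linarith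
    rw [lt_div_iff₀ hs'] at h3
    have h4 : (((s : ℚ) * E (univ : Finset (Fin n)) (Fail f) : ℚ) : ℝ) < (((n : ℚ) + 1 : ℚ) : ℝ) := by
      push_cast
      linarith
    exact_mod_cast h4
  obtain ⟨S, hS⟩ := exists_iterC _ f s hlt
  obtain ⟨M, h1, h2, _, h4⟩ := extractM H (fun e he => by
    rw [← card_pos, hH e he]; omega) s S hS
  exact ⟨M, h1, h2, h4⟩

end Pool.Agent.FracEM
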