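import Mathlib

set_option autoImplicit false

namespace Pool.Agent.FracEM

/-- `H`, a set of `k`-element subsets of the vertex set `Fin n`, has a fractional matching of size
`s`: weights in `[0,1]` on the edges, total weight at most one at each vertex, total weight
exactly `s`. -/
def HasFracMatching {n : ℕ} (H : Finset (Finset (Fin n))) (s : ℝ) : Prop :=
  ∃ w : Finset (Fin n) → ℝ, (∀ e ∈ H, 0 ≤ w e ∧ w e ≤ 1) ∧
    (∀ v : Fin n, ∑ e ∈ H.filter (fun e => v ∈ e), w e ≤ 1) ∧ ∑ e ∈ H, w e = s

/-- `f_0^s(k,n)`: the least `m` such that every `k`-uniform hypergraph on `n` vertices with at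
least `m` edges has a fractional matching of size `s`. -/
noncomputable def f0 (k n s : ℕ) : ℕ :=
  sInf {m : ℕ | ∀ H : Finset (Finset (Fin n)), (∀ e ∈ H, e.card = k) → m ≤ H.card →
    HasFracMatching H s}

end Pool.Agent.FracEM
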