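import Mathlib

set_option autoImplicit false

namespace Pool.Agent.FracEM

open Finset Filter Topology

theorem FEM_choose_ratio (k : ℕ) (y : ℝ) (hy0 : 0 < y) (hy1 : y < 1) :
    Tendsto (fun n : ℕ => (((⌊y * n⌋₊).choose k : ℕ) : ℝ) / (n.choose k : ℝ)) atTop (𝓝 (y ^ k)) := by
  have hE := isEquivalent_choose k
  have hm : Tendsto (fun n : ℕ => ⌊y * (n : ℝ)⌋₊) atTop atTop :=
    tendsto_nat_floor_atTop.comp (tendsto_natCast_atTop_atTop.const_mul_atTop hy0)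
  have hE2 := hE.comp_tendsto hm
  have hdiv := hE2.div hE
  refine hdiv.symm.tendsto_nhds ?_
  have h1 : Tendsto (fun n : ℕ => ((⌊y * (n : ℝ)⌋₊ : ℝ) / (n : ℝ)) ^ k) atTop (𝓝 (y ^ k)) := by
    refine Tendsto.pow ?_ k
    exact (tendsto_nat_floor_mul_div_atTop hy0.le).comp tendsto_natCast_atTop_atTop
  refine h1.congr fun n => ?_
  have hk : (k.factorial : ℝ) ≠ 0 := by exact_mod_cast k.factorial_ne_zero
  show _ = ((⌊y * (n : ℝ)⌋₊ : ℝ) ^ k / (k.factorial : ℝ)) / ((n : ℝ) ^ k / (k.factorial : ℝ))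
  rw [div_div_div_cancel_right₀ hk, div_pow]



theorem FEM_kot_compare_bonf (k : ℕ) (t : ℝ) (h0 : 0 ≤ t) (h1 : t ≤ 1) :
    1 - k * t + (k * (k - 1) / 2 : ℝ) * t ^ 2 - (k * (k - 1) * (k - 2) / 6 : ℝ) * t ^ 3 ≤
      (1 - t) ^ k := by
  induction k with
  | zero => simp
  | succ k ih =>
    have hc : (0 : ℝ) ≤ (k * (k - 1) * (k - 2) / 6 : ℝ) := by
      rcases k with _ | _ | k
      · simp
      · simp
      · push_cast
        have : (0 : ℝ) ≤ k := Nat.cast_nonneg k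
        have e : ((k : ℝ) + 1 + 1) * ((k : ℝ) + 1 + 1 - 1) * ((k : ℝ) + 1 + 1 - 2) / 6 =
          (k + 2) * (k + 1) * k / 6 := by ring
        rw [e]
        positivity
    have h2 : (1 - t) * (1 - k * t + (k * (k - 1) / 2 : ℝ) * t ^ 2 -
        (k * (k - 1) * (k - 2) / 6 : ℝ) * t ^ 3) ≤ (1 - t) * (1 - t) ^ k :=
      mul_le_mul_of_nonneg_left ih (by linarith)
    rw [pow_succ (1 - t), mul_comm ((1 - t) ^ k)]
    refine le_trans (le_of_sub_nonneg ?_) h2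
    have e : (1 - t) * (1 - k * t + (k * (k - 1) / 2 : ℝ) * t ^ 2 -
        (k * (k - 1) * (k - 2) / 6 : ℝ) * t ^ 3) -
        (1 - ((k + 1 : ℕ) : ℝ) * t + (((k + 1 : ℕ) : ℝ) * (((k + 1 : ℕ) : ℝ) - 1) / 2 : ℝ) * t ^ 2 -
        (((k + 1 : ℕ) : ℝ) * (((k + 1 : ℕ) : ℝ) - 1) * (((k + 1 : ℕ) : ℝ) - 2) / 6 : ℝ) * t ^ 3) =
        (k * (k - 1) * (k - 2) / 6 : ℝ) * t ^ 4 := by
      push_cast
      ring
    rw [e]
    positivity

theorem FEM_kot_compare_sub (k : ℕ) (a b : ℝ) (hb : 0 ≤ b) (hba : b ≤ a) (ha : a ≤ 1) :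
    a ^ k - k * b ≤ (a - b) ^ k := by
  induction k with
  | zero => simp
  | succ k ih =>
    have h2 : (a - b) * (a ^ k - k * b) ≤ (a - b) * (a - b) ^ k :=
      mul_le_mul_of_nonneg_left ih (by linarith)
    rw [pow_succ (a - b), mul_comm ((a - b) ^ k)]
    refine le_trans (le_of_sub_nonneg ?_) h2
    have ha0 : 0 ≤ a := hb.trans hba
    have hk0 : (0 : ℝ) ≤ k := Nat.cast_nonneg k
    have hak : a ^ k ≤ 1 := pow_le_one₀ ha0 ha
    have e : (a - b) * (a ^ k - k * b) - (a ^ (k + 1) - ((k + 1 : ℕ) : ℝ) * b) =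
        k * b * (1 - a) + b * (1 - a ^ k) + k * b ^ 2 := by
      push_cast
      ring
    rw [e]
    have e1 : 0 ≤ k * b * (1 - a) := mul_nonneg (mul_nonneg hk0 hb) (by linarith)
    have e2 : 0 ≤ b * (1 - a ^ k) := mul_nonneg hb (by linarith)
    have e3 : 0 ≤ k * b ^ 2 := by positivity
    linarith

/-- comparison with the Kuhn-Osthus-Townsend constant -/
theorem FEM_kot_compare (k d : ℕ) (hk : 3 ≤ k) (hd : 1 ≤ d) (y : ℝ) (hy0 : 0 < y) (hy1 : y < 1)
    (hy : y ^ k = d * (1 - y)) :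
    1 - y ^ k < (k : ℝ) / (k + d) - (k - 1) / ((k : ℝ) + d) ^ k := by
  have hK : (3 : ℝ) ≤ k := by exact_mod_cast hk
  have hD : (1 : ℝ) ≤ d := by exact_mod_cast hd
  have hbonf := FEM_kot_compare_bonf k
  have hsub := FEM_kot_compare_sub k
  obtain ⟨K, hKdef⟩ : ∃ K : ℝ, K = k := ⟨_, rfl⟩
  obtain ⟨D, hDdef⟩ : ∃ D : ℝ, D = d := ⟨_, rfl⟩
  rw [← hKdef] at hK hbonf hsub ⊢
  rw [← hDdef] at hD hy ⊢
  obtain ⟨N, hN⟩ : ∃ N : ℝ, N = K + D := ⟨_, rfl⟩
  rw [← hN]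
  have hN4 : 4 ≤ N := by linarith
  have hN0 : 0 < N := by linarith
  obtain ⟨t, ht⟩ : ∃ t : ℝ, t = N⁻¹ := ⟨_, rfl⟩
  have hNt : N * t = 1 := by rw [ht]; exact mul_inv_cancel₀ hN0.ne'
  have ht0 : 0 < t := by rw [ht]; positivity
  have ht4 : t ≤ 1 / 4 := by
    rw [ht]
    rw [inv_le_comm₀ hN0 (by norm_num)]
    linarith
  have e1 : K / N = K * t := by rw [ht, div_eq_mul_inv]
  have e2 : (K - 1) / N ^ k = (K - 1) * t ^ k := by rw [ht, inv_pow, div_eq_mul_inv]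
  rw [e1, e2]
  by_contra hcon
  push Not at hcon
  have hKt : 1 - K * t = D * t := by
    have : (K + D) * t = 1 := by rw [← hN]; exact hNt
    linarith
  have hB : y ^ k ≤ D * t + (K - 1) * t ^ k := by linarith
  have hD0 : 0 < D := by linarith
  obtain ⟨b, hb⟩ : ∃ b : ℝ, b = (K - 1) * t ^ k / D := ⟨_, rfl⟩
  have hDb : D * b = (K - 1) * t ^ k := by rw [hb]; field_simp
  have htk : t ^ k ≤ t ^ 3 := pow_le_pow_of_le_one ht0.le (by linarith) hk
  have htk0 : 0 < t ^ k := by positivity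
  have hb0 : 0 ≤ b := by
    rw [hb]
    have : 0 ≤ K - 1 := by linarith
    positivity
  have hb3 : D * b ≤ (K - 1) * t ^ 3 := by
    rw [hDb]
    exact mul_le_mul_of_nonneg_left htk (by linarith)
  have hb2 : b ≤ t ^ 2 := by
    have h1 : b ≤ D * b := le_mul_of_one_le_left hb0 hD
    have h2 : (K - 1) * t ^ 3 ≤ N * t ^ 3 := by
      have : K - 1 ≤ N := by linarith
      gcongr
    have h3 : N * t ^ 3 = t ^ 2 := by
      calc N * t ^ 3 = (N * t) * t ^ 2 := by ring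
        _ = t ^ 2 := by rw [hNt, one_mul]
    linarith
  have hyab : (1 - t) - b ≤ y := by
    have h1 : D * (1 - y) ≤ D * (t + b) := by
      rw [← hy, mul_add, hDb]
      exact hB
    have h2 := le_of_mul_le_mul_left h1 hD0
    linarith
  have ht16 : t ^ 2 ≤ 1 / 4 * (1 / 4) := by
    rw [sq]
    exact mul_le_mul ht4 ht4 ht0.le (by norm_num)
  have hba : b ≤ 1 - t := by linarith
  have hpow : ((1 - t) - b) ^ k ≤ y ^ k := pow_le_pow_left₀ (by linarith) hyab k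
  have h4 := hsub (1 - t) b hb0 hba (by linarith)
  have h5 := hbonf t ht0.le (by linarith)
  have h6 : (K - 1) * t ^ 2 * (K * (3 - (K - 2) * t) / 6) ≤ N * b := by
    have h7 : 1 - K * t + K * (K - 1) / 2 * t ^ 2 - K * (K - 1) * (K - 2) / 6 * t ^ 3 - K * b ≤
        D * t + D * b := by linarith
    have h8 : K * (K - 1) / 2 * t ^ 2 - K * (K - 1) * (K - 2) / 6 * t ^ 3 ≤ (K + D) * b := by
      linarith
    rw [hN]
    refine le_trans (le_of_eq ?_) h8
    ring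
  have h9 : D * (N * b) ≤ (K - 1) * t ^ 2 := by
    calc D * (N * b) = N * (D * b) := by ring
      _ ≤ N * ((K - 1) * t ^ 3) := mul_le_mul_of_nonneg_left hb3 hN0.le
      _ = (N * t) * ((K - 1) * t ^ 2) := by ring
      _ = (K - 1) * t ^ 2 := by rw [hNt, one_mul]
  have h10 : 0 < (K - 1) * t ^ 2 := by
    have : 0 < K - 1 := by linarith
    positivity
  have h11 : (K - 1) * t ^ 2 * (D * (K * (3 - (K - 2) * t) / 6)) ≤ (K - 1) * t ^ 2 * 1 := by
    calc (K - 1) * t ^ 2 * (D * (K * (3 - (K - 2) * t) / 6))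
        = D * ((K - 1) * t ^ 2 * (K * (3 - (K - 2) * t) / 6)) := by ring
      _ ≤ D * (N * b) := mul_le_mul_of_nonneg_left h6 hD0.le
      _ ≤ (K - 1) * t ^ 2 := h9
      _ = (K - 1) * t ^ 2 * 1 := by ring
  have h12 := le_of_mul_le_mul_left h11 h10
  have h13 : D * K * (3 * N - (K - 2)) ≤ 6 * N := by
    have h14 : N * (D * (K * (3 - (K - 2) * t) / 6)) ≤ N * 1 :=
      mul_le_mul_of_nonneg_left h12 hN0.le
    have h15 : N * (D * (K * (3 - (K - 2) * t) / 6)) =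
        D * K * (3 * N - (K - 2) * (N * t)) / 6 := by ring
    rw [h15, hNt] at h14
    linarith
  rw [hN] at h13
  have h16 : 0 ≤ (K - 1) * (D - 1) := mul_nonneg (by linarith) (by linarith)
  have hK0 : 0 ≤ K := by linarith
  have h17 : 3 ≤ D * K := by
    calc (3 : ℝ) ≤ K := hK
      _ ≤ D * K := le_mul_of_one_le_left hK0 hD
  have h18 : D * K * 11 ≤ D * K * (3 * (K + D) - (K - 2)) := by
    refine mul_le_mul_of_nonneg_left ?_ (mul_nonneg hD0.le hK0)
    linarith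
  have h19 : K + D ≤ D * K + 1 := by
    have e : (K - 1) * (D - 1) = D * K - K - D + 1 := by ring
    rw [e] at h16
    linarith
  linarith


end Pool.Agent.FracEM
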