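import Mathlib
import Pool.Agent.FracEM.Defs
import Pool.Agent.FracEM.Bound
import Pool.Agent.FracEM.Real

set_option autoImplicit false

namespace Pool.Agent.FracEM

open Finset Filter Topology

theorem frac_of_matching {n : ℕ} (H M : Finset (Finset (Fin n))) (hMH : M ⊆ H)
    (hd : ∀ e ∈ M, ∀ e' ∈ M, e ≠ e' → Disjoint e e') : HasFracMatching H (M.card : ℝ) := by
  classical
  refine ⟨fun e => if e ∈ M then 1 else 0, ?_, ?_, ?_⟩
  · intro e _
    by_cases h : e ∈ M <;> simp [h]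
  · intro v
    rw [← Finset.sum_filter, Finset.sum_const, nsmul_eq_mul, mul_one]
    have : ((H.filter (fun e => v ∈ e)).filter (fun e => e ∈ M)).card ≤ 1 := by
      rw [card_le_one]
      intro a ha b hb
      rw [mem_filter, mem_filter] at ha hb
      by_contra hab
      exact (Finset.disjoint_left.1 (hd a ha.2 b hb.2 hab)) ha.1.2 hb.1.2
    exact_mod_cast this
  · rw [← Finset.sum_filter, Finset.sum_const, nsmul_eq_mul, mul_one]
    congr 1
    congr 1
    ext e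
    rw [mem_filter]
    exact ⟨fun h => h.2, fun h => ⟨hMH h, h⟩⟩

theorem f0_le {n k s : ℕ} (hk : 1 ≤ k) (hs : 1 ≤ s) (y : ℝ) (hy0 : 0 ≤ y) (hy1 : y < 1)
    (hy : y ^ k / (1 - y) ≤ ((n : ℝ) + 1) / s - k) :
    f0 k n s + (⌊y * n⌋₊).choose k ≤ n.choose k + 1 := by
  have hm : (⌊y * n⌋₊).choose k ≤ n.choose k := by
    refine Nat.choose_le_choose k ?_
    have h1 : (⌊y * n⌋₊ : ℝ) ≤ y * n := Nat.floor_le (by positivity)
    have h2 : (0 : ℝ) ≤ n := by positivity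
    have : (⌊y * n⌋₊ : ℝ) ≤ n := by nlinarith
    exact_mod_cast this
  have : f0 k n s ≤ n.choose k + 1 - (⌊y * n⌋₊).choose k := by
    refine Nat.sInf_le ?_
    intro H hH hcard
    obtain ⟨M, h1, h2, h3⟩ := finite_bound hk hs y hy0 hy1 hy H hH (by omega)
    have := frac_of_matching H M h1 h3
    rwa [h2] at this
  omega

theorem exists_root (k d : ℕ) (hk : 1 ≤ k) (hd : 1 ≤ d) :
    ∃ y : ℝ, 0 < y ∧ y < 1 ∧ y ^ k = d * (1 - y) := by
  have hd' : (1 : ℝ) ≤ d := by exact_mod_cast hd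
  have hcont : ContinuousOn (fun y : ℝ => y ^ k - d * (1 - y)) (Set.Icc 0 1) := by fun_prop
  have h0 : (fun y : ℝ => y ^ k - d * (1 - y)) 0 < 0 := by
    simp only [zero_pow (by omega : k ≠ 0)]
    linarith
  have h1 : 0 < (fun y : ℝ => y ^ k - d * (1 - y)) 1 := by simp
  have := intermediate_value_Ioo (zero_le_one) hcont
  obtain ⟨y, hy, hy2⟩ := this ⟨h0, h1⟩
  exact ⟨y, hy.1, hy.2, by simp only at hy2; linarith⟩

theorem asym (k d : ℕ) (hk : 1 ≤ k) (_hd : 1 ≤ d) (y : ℝ) (hy0 : 0 < y) (hy1 : y < 1)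
    (hy : y ^ k = d * (1 - y)) (ε : ℝ) (hε : 0 < ε) :
    ∀ᶠ s : ℕ in atTop, (f0 k ((k + d) * s) s : ℝ) ≤
      (1 - y ^ k + ε) * (((k + d) * s).choose k : ℕ) := by
  have hn : Tendsto (fun s : ℕ => (k + d) * s) atTop atTop :=
    tendsto_id.const_mul_atTop' (by omega)
  have h1 := (FEM_choose_ratio k y hy0 hy1).comp hn
  have h2 : ∀ᶠ s : ℕ in atTop, y ^ k - ε / 2 <
      (((⌊y * (((k + d) * s : ℕ) : ℝ)⌋₊).choose k : ℕ) : ℝ) / ((((k + d) * s).choose k : ℕ) : ℝ) :=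
    h1.eventually (lt_mem_nhds (by linarith))
  have h3 : Tendsto (fun n : ℕ => ((n.choose k : ℕ) : ℝ)) atTop atTop := by
    refine (isEquivalent_choose k).symm.tendsto_atTop ?_
    refine Tendsto.atTop_div_const (by positivity) ?_
    exact (tendsto_pow_atTop (by omega)).comp tendsto_natCast_atTop_atTop
  have h4 : ∀ᶠ s : ℕ in atTop, 2 / ε ≤ ((((k + d) * s).choose k : ℕ) : ℝ) :=
    (h3.comp hn).eventually (eventually_ge_atTop (2 / ε))
  filter_upwards [h2, h4, eventually_ge_atTop 1] with s hs2 hs4 hs1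
  have hs' : (0 : ℝ) < s := by exact_mod_cast hs1
  have hkey : y ^ k / (1 - y) ≤ ((((k + d) * s : ℕ) : ℝ) + 1) / s - k := by
    rw [hy, mul_div_assoc, div_self (by linarith), mul_one]
    push_cast
    rw [le_sub_iff_add_le, le_div_iff₀ hs']
    nlinarith
  have h5 := f0_le hk hs1 y hy0.le hy1 hkey
  have h6 : (f0 k ((k + d) * s) s : ℝ) + (((⌊y * (((k + d) * s : ℕ) : ℝ)⌋₊).choose k : ℕ) : ℝ)
      ≤ (((k + d) * s).choose k : ℕ) + 1 := by exact_mod_cast h5
  have hC : (0 : ℝ) < ((((k + d) * s).choose k : ℕ) : ℝ) := lt_of_lt_of_le (by positivity) hs4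
  rw [lt_div_iff₀ hC] at hs2
  have h7 : 1 ≤ ε / 2 * ((((k + d) * s).choose k : ℕ) : ℝ) := by
    have := mul_le_mul_of_nonneg_left hs4 (by positivity : 0 ≤ ε / 2)
    have h8 : ε / 2 * (2 / ε) = 1 := by field_simp
    linarith
  nlinarith

end Pool.Agent.FracEM
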